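import Mathlib
import Pool.Agent.R575.ND.Final

namespace Pool.Agent.Results.MP_52a9f3_lc.NotationDependence

open Pool.Agent.R575.HY Pool.Agent.R575.ND
open Ordinal

/-- The iterate `E^{+a}` and the ordinal `|a|` depend only on `a`, and there are notations `a`, `b`
in Kleene's O, both denoting `ω ^ 2`, such that `id^{+a}` is not computably reducible to
`id^{+b}`. -/
theorem result :
    (∀ (E : ℕ → ℕ → Prop) (a : ℕ) (p q : Ntn a), FS E p = FS E q) ∧
    (∀ (a : ℕ) (p q : Ntn a), ord p = ord q) ∧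
    (∃ (a b : ℕ) (p : Ntn a) (q : Ntn b), ord p = ω ^ 2 ∧ ord q = ω ^ 2 ∧
      ¬ CRed (FS (fun n m => n = m) p) (FS (fun n m => n = m) q)) :=
  ⟨FS_indep, ord_indep, _, _, aN, bN, ord_aN, ord_bN, not_reducible⟩

end Pool.Agent.Results.MP_52a9f3_lc.NotationDependence
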